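import Mathlib
import Pool.Agent.Hhelper49.Kappa.Few

/-!
# Circuit partitions of `κ`-matching extendable matroids
-/

namespace Pool.Agent.Results.MP_d197f9_co.KappaExtendable

open Set Cardinal Matroid Pool.Hhelper49.Kappa

universe u

variable {α : Type u} {M : Matroid α}

lemma good_of_bounded {κ κ' : Cardinal.{u}} (hκ' : κ'.IsRegular) (hle : κ' ≤ κ)
    (hC : ∀ C, M.IsCircuit C → #C < κ') : Good κ M where
  circ C hC' := (hC C hC').trans_le hle
  nb _ _ hlam hlt k := mk_Nb_lt_of_isRegular hκ' hlam (hle.trans_lt hlt)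
    (fun C h => hC C (delete_isCircuit_iff.1 h).1) k

/-- Let `κ` be an infinite cardinal and `M` a `κ`-matching extendable matroid all of whose circuits
have fewer than `κ` elements. Suppose that some regular cardinal `κ' ≤ κ` is larger than every
circuit (for example that `κ` is regular), or that `M` is tame (circuits meet cocircuits in finite
sets), or that `2 ^ μ ≤ κ` for every `μ < κ`, or that every circuit has at most `κ` different
intersections with cocircuits, or that the ground set has at most `κ` elements. Then `M` has a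
perfect matching: its ground set is partitioned into circuits. -/
theorem result {α : Type u} (M : Matroid α) (κ : Cardinal.{u}) (hκ : ℵ₀ ≤ κ)
    (hC : ∀ C, M.IsCircuit C → #C < κ) (hM : MatchingExtendable κ M)
    (h : (∃ κ' ≤ κ, κ'.IsRegular ∧ ∀ C, M.IsCircuit C → #C < κ') ∨
      (∀ C D, M.IsCircuit C → M.IsCocircuit D → (C ∩ D).Finite) ∨
      (∀ μ < κ, 2 ^ μ ≤ κ) ∨
      (∀ C, M.IsCircuit C → #{Z : Set α | ∃ D, M.IsCocircuit D ∧ C ∩ D = Z} ≤ κ) ∨
      #M.E ≤ κ) :
    ∃ 𝒬, IsPerfectMatching M 𝒬 := by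
  rcases h with ⟨κ', hle, hreg, hC'⟩ | h1 | h2 | h3 | hE
  · exact exists_perfect_of_good hκ (good_of_bounded hreg hle hC') hM
  · exact exists_perfect_of_good hκ (good_of_few hκ hC (mk_traces_le_of_finite hκ hC h1)) hM
  · exact exists_perfect_of_good hκ (good_of_few hκ hC (mk_traces_le_of_strong h2 hC)) hM
  · exact exists_perfect_of_good hκ (good_of_few hκ hC h3) hM
  · obtain ⟨𝒬, h1, h2, _, _⟩ := greedy hκ hC hM M.E hE (fun _ => ∅) (fun _ => by simp)
    refine ⟨𝒬, h1, ?_⟩
    apply Subset.antisymm
    · exact sUnion_subset fun C hC => (h1.1 C hC).subset_ground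
    · exact fun x hx => h2 ⟨hx, hx⟩

end Pool.Agent.Results.MP_d197f9_co.KappaExtendable
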